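import Pool.Agent.R264.Ehr.A8

/-!
# Ehrhart's volume conjecture

For every `d ≥ 1`, every lattice `L = A ℤ^d` and every convex body `K` of `ℝ^d` with centroid at
the origin and `(int K) ∩ L = {0}`, we have `vol K ≤ ((d+1)^d / d!) det L`.

Proof.  Let `L = ℤ^d`, `K' = (1-ε)K`, `S = mK' ∩ ℤ^d`, `N = #S`.  Work over `𝔽₂`.  For `u ∈ S` let
`s_u` be a polynomial with exponents in `S` and leading exponent `u` whose order of vanishing at
`(1,…,1)` is as large as possible.  By linear algebra the orders add up to at least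
`(d+1)mN - C((d+1)m+d, d+1)`.  The product `F = ∏ s_u` has leading exponent `∑ S`, which is close
to `Nm` times the centroid; by the Frobenius map (reduction of the exponents modulo `q = 2^e`) of
`F^k`, `k ≤ q/(Nm)`, and since `int K` has no lattice point other than `0`, the order of `F` at
`(1,…,1)` is at most `dNm`.  So `mN ≤ C((d+1)m+d, d+1)`.  Now let `m → ∞` and `ε → 0`.
-/

set_option autoImplicit false

noncomputable section

open MeasureTheory

namespace Pool.Agent.Results.MP_4c844b_co.EhrhartVolume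

/-- the lattice `A ℤ^d` -/
def lattice {d : ℕ} (A : Matrix (Fin d) (Fin d) ℝ) : Set (Fin d → ℝ) :=
  Set.range fun w : Fin d → ℤ => A.mulVec fun i => (w i : ℝ)

/-- the centroid of `K` -/
def centroid {d : ℕ} (K : Set (Fin d → ℝ)) : Fin d → ℝ := (volume.real K)⁻¹ • ∫ x in K, x

section

open Pool.Agent.R264.Ehr

lemma transfer {d : ℕ} {A : Matrix (Fin d) (Fin d) ℝ} (hA : A.det ≠ 0) {K : Set (Fin d → ℝ)}
    (hcpt : IsCompact K) (hint : ∫ x in K, x = 0) :
    volume.real (Matrix.toLin' A ⁻¹' K) = |A.det|⁻¹ * volume.real K ∧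
      ∀ i, ∫ x in Matrix.toLin' A ⁻¹' K, x i = 0 := by
  have hmap := Real.map_matrix_volume_pi_eq_smul_volume_pi hA
  have hcont : Continuous (Matrix.toLin' A) := (Matrix.toLin' A).continuous_of_finiteDimensional
  have hmeas : Measurable (Matrix.toLin' A) := hcont.measurable
  refine ⟨?_, ?_⟩
  · rw [measureReal_def, ← Measure.map_apply hmeas hcpt.measurableSet, hmap, Measure.smul_apply,
      smul_eq_mul, ENNReal.toReal_mul, ENNReal.toReal_ofReal (abs_nonneg _), abs_inv,
      measureReal_def]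
  · intro i
    have hinv : A⁻¹ * A = 1 := Matrix.nonsing_inv_mul A (isUnit_iff_ne_zero.2 hA)
    have e1 : ∀ x : Fin d → ℝ, x i = (Matrix.toLin' A⁻¹ (Matrix.toLin' A x)) i := by
      intro x
      rw [← LinearMap.comp_apply, ← Matrix.toLin'_mul, hinv, Matrix.toLin'_one]
      rfl
    have hcont2 : Continuous (Matrix.toLin' A⁻¹) :=
      (Matrix.toLin' A⁻¹).continuous_of_finiteDimensional
    have hfm : Continuous fun y : Fin d → ℝ => (Matrix.toLin' A⁻¹ y) i :=
      (continuous_apply i).comp hcont2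
    have h1 : ∫ x in Matrix.toLin' A ⁻¹' K, x i =
        ∫ y in K, (Matrix.toLin' A⁻¹ y) i ∂(Measure.map (Matrix.toLin' A) volume) := by
      rw [setIntegral_map hcpt.measurableSet hfm.aestronglyMeasurable hmeas.aemeasurable]
      exact integral_congr_ae (Filter.Eventually.of_forall fun x => e1 x)
    rw [h1, hmap, Measure.restrict_smul, integral_smul_measure]
    have hK : IntegrableOn (fun x : Fin d → ℝ => x) K :=
      continuous_id.continuousOn.integrableOn_compact hcpt
    have h2 : ∫ y in K, (Matrix.toLin' A⁻¹ y) i = 0 := by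
      let φ : (Fin d → ℝ) →L[ℝ] ℝ :=
        (ContinuousLinearMap.proj i).comp (LinearMap.toContinuousLinearMap (Matrix.toLin' A⁻¹))
      have h3 : ∫ y in K, φ y = φ (∫ y in K, y) := φ.integral_comp_comm hK
      rw [hint, map_zero] at h3
      exact h3
    rw [h2, smul_zero]

end

/-- **Ehrhart's volume conjecture** (in every dimension `d ≥ 1`). -/
theorem result : ∀ d : ℕ, 1 ≤ d → ∀ A : Matrix (Fin d) (Fin d) ℝ, A.det ≠ 0 →
    ∀ K : Set (Fin d → ℝ), Convex ℝ K → IsCompact K → (interior K).Nonempty →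
      centroid K = 0 → interior K ∩ lattice A = {0} →
      volume.real K ≤ ((d : ℝ) + 1) ^ d / d.factorial * |A.det| := by
  intro d hd A hA K hK hcpt hne hcen hlat
  obtain ⟨n, rfl⟩ : ∃ n, d = n + 1 := ⟨d - 1, by omega⟩
  have hdet : 0 < |A.det| := abs_pos.2 hA
  have hpos : volume.real K ≠ 0 := by
    rw [measureReal_def]
    refine (ENNReal.toReal_pos ?_ hcpt.measure_lt_top.ne).ne'
    exact ((isOpen_interior.measure_pos volume hne).trans_le
      (measure_mono interior_subset)).ne'
  have hint : ∫ x in K, x = 0 := by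
    have h1 : (volume.real K)⁻¹ • ∫ x in K, x = 0 := hcen
    rcases smul_eq_zero.1 h1 with h | h
    · exact absurd h (inv_ne_zero hpos)
    · exact h
  obtain ⟨h1, h2⟩ := transfer hA hcpt hint
  -- the linear homeomorphism
  let f : (Fin (n + 1) → ℝ) →ₗ[ℝ] (Fin (n + 1) → ℝ) := Matrix.toLin' A
  have hf : LinearMap.det f ≠ 0 := by
    rw [LinearMap.det_toLin']; exact hA
  let g : (Fin (n + 1) → ℝ) ≃L[ℝ] (Fin (n + 1) → ℝ) :=
    (f.equivOfDetNeZero hf).toContinuousLinearEquiv
  have hg : ∀ x, g x = f x := fun x => rfl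
  have hpre : Matrix.toLin' A ⁻¹' K = g.toHomeomorph ⁻¹' K := rfl
  have hcpt' : IsCompact (Matrix.toLin' A ⁻¹' K) := by
    rw [hpre]
    exact (g.toHomeomorph.isCompact_preimage).2 hcpt
  have hconv' : Convex ℝ (Matrix.toLin' A ⁻¹' K) := hK.linear_preimage _
  have hint' : interior (Matrix.toLin' A ⁻¹' K) = Matrix.toLin' A ⁻¹' interior K := by
    rw [hpre, ← g.toHomeomorph.preimage_interior]
    rfl
  have h0 : (0 : Fin (n + 1) → ℝ) ∈ interior K := by
    have : (0 : Fin (n + 1) → ℝ) ∈ interior K ∩ lattice A := by rw [hlat]; rfl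
    exact this.1
  have h3 := Pool.Agent.R264.Ehr.ehrhart_Z n (Matrix.toLin' A ⁻¹' K) hconv' hcpt'
    (by rw [hint']; simpa using h0) (by
      intro w hw
      rw [hint'] at hw
      have hw' : A.mulVec (Pool.Agent.R264.Ehr.ir w) ∈ interior K := by
        simpa [Matrix.toLin'_apply] using hw
      have hw2 : A.mulVec (Pool.Agent.R264.Ehr.ir w) ∈ interior K ∩ lattice A :=
        ⟨hw', ⟨w, rfl⟩⟩
      rw [hlat] at hw2
      have hw3 : A.mulVec (Pool.Agent.R264.Ehr.ir w) = 0 := hw2
      have hinv : A⁻¹ * A = 1 := Matrix.nonsing_inv_mul A (isUnit_iff_ne_zero.2 hA)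
      have hw4 : Pool.Agent.R264.Ehr.ir w = 0 := by
        have := congrArg (A⁻¹.mulVec) hw3
        rwa [Matrix.mulVec_mulVec, hinv, Matrix.one_mulVec, Matrix.mulVec_zero] at this
      ext i
      have h5 : ((w i : ℤ) : ℝ) = 0 := congrFun hw4 i
      exact_mod_cast h5) h2
  rw [h1] at h3
  have h4 : ((n : ℝ) + 2) ^ (n + 2) / (n + 2).factorial =
      (((n + 1 : ℕ) : ℝ) + 1) ^ (n + 1) / (n + 1).factorial := by
    have h5 : (((n + 2).factorial : ℕ) : ℝ) = ((n : ℝ) + 2) * ((n + 1).factorial : ℝ) := by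
      rw [Nat.factorial_succ]; push_cast; ring
    rw [h5]
    push_cast
    have h6 : (n : ℝ) + 1 + 1 = n + 2 := by ring
    rw [h6]
    have : ((n + 1).factorial : ℝ) ≠ 0 := by positivity
    field_simp
    ring
  rw [h4] at h3
  rw [inv_mul_le_iff₀ hdet] at h3
  rw [mul_comm]
  exact h3

end Pool.Agent.Results.MP_4c844b_co.EhrhartVolume

end
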